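import Pool.Agent.Helper67.KPG.St2

/-!
# Project KP (MP_26be5b_ag), module CHM: the rational solution of `[x, [x, F]] = -2 q x` on the orbit
-/

set_option autoImplicit false
set_option linter.unusedSectionVars false

namespace Pool.Agent.Helper6.KPG

open Pool.Agent.Helper67.NO Pool.Agent.Helper52.KP Pool.Agent.Helper67.KPG

universe u

variable {g : Type u} [LieRing g] [LieAlgebra ℂ g] [FiniteDimensional ℂ g]

/-- `(ad x)^2` -/
noncomputable def ad2 (x : g) : g →ₗ[ℂ] g :=
  (LieAlgebra.ad ℂ g x : g →ₗ[ℂ] g) ∘ₗ (LieAlgebra.ad ℂ g x : g →ₗ[ℂ] g)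

theorem ad2_apply (x y : g) : ad2 x y = ⁅x, ⁅x, y⁆⁆ := rfl

/-- the matrix of `(ad x)^2` -/
noncomputable def MM (x : g) :
    Matrix (Fin (Module.finrank ℂ g)) (Fin (Module.finrank ℂ g)) ℂ :=
  LinearMap.toMatrix (Module.finBasis ℂ g) (Module.finBasis ℂ g) (ad2 x)

theorem MM_apply (x : g) (i j : Fin (Module.finrank ℂ g)) :
    MM x i j = co ⁅x, ⁅x, Module.finBasis ℂ g j⁆⁆ i := by
  rw [MM, LinearMap.toMatrix_apply, ad2_apply]; rfl

theorem MM_mulVec (x y : g) : (MM x).mulVec (co y) = co ⁅x, ⁅x, y⁆⁆ := by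
  have h := LinearMap.toMatrix_mulVec_repr (Module.finBasis ℂ g) (Module.finBasis ℂ g) (ad2 x) y
  exact h

theorem MM_rank (x : g) : (MM x).rank = Module.finrank ℂ (LinearMap.range (ad2 x)) := by
  rw [Matrix.rank_eq_finrank_range_toLin (MM x) (Module.finBasis ℂ g) (Module.finBasis ℂ g), MM,
    Matrix.toLin_toMatrix]

theorem MM_hp (H : HPc g) (i j : Fin (Module.finrank ℂ g)) : HP 2 (fun x : g => MM x i j) := by
  have h := H.vbr 1 (1 + 0) (fun x : g => x) (fun x : g => ⁅x, Module.finBasis ℂ g j⁆) H.vid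
    (H.vbr 1 0 (fun x : g => x) (fun _ : g => Module.finBasis ℂ g j) H.vid (H.vconst _))
  have h2 := h i
  simp only [MM_apply]
  exact h2

theorem rank_orb (G : GPs g) (e : g) (w : g →ₗ[ℂ] g) (hw : GP (⊤ : Submodule ℂ g) w) :
    (MM (w e)).rank = (MM e).rank := by
  rw [MM_rank, MM_rank]
  obtain ⟨w', hw', h1, h2⟩ := G.inv ⊤ w hw
  let W : g ≃ₗ[ℂ] g := LinearEquiv.ofLinearMap w w' h1 h2
  have hW : ∀ x, W x = w x := fun x => rfl
  have hr : LinearMap.range (ad2 (w e)) = (LinearMap.range (ad2 e)).map (W : g →ₗ[ℂ] g) := by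
    ext z
    constructor
    · rintro ⟨y, rfl⟩
      refine ⟨ad2 e (w' y), ⟨w' y, rfl⟩, ?_⟩
      change w (ad2 e (w' y)) = _
      have h3 : w (w' y) = y := by
        have := congrArg (fun t : g →ₗ[ℂ] g => t y) h1
        simpa using this
      rw [ad2_apply, ad2_apply, G.lie ⊤ w hw, G.lie ⊤ w hw, h3]
    · rintro ⟨y, ⟨v, rfl⟩, rfl⟩
      refine ⟨w v, ?_⟩
      change _ = w (ad2 e v)
      rw [ad2_apply, ad2_apply, G.lie ⊤ w hw, G.lie ⊤ w hw]
  rw [hr, LinearEquiv.finrank_map_eq]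

theorem co_add (x y : g) : co (x + y) = co x + co y := by
  funext i; simp [co]

theorem co_smul (c : ℂ) (x : g) : co (c • x) = c • co x := by
  funext i; simp [co]

theorem co_zero : co (0 : g) = 0 := by
  funext i; simp [co]

theorem co_sum {ι : Type} (s : Finset ι) (f : ι → g) : co (∑ i ∈ s, f i) = ∑ i ∈ s, co (f i) := by
  classical
  induction s using Finset.induction_on with
  | empty => simp [co_zero]
  | insert a s ha ih => rw [Finset.sum_insert ha, Finset.sum_insert ha, co_add, ih]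

theorem co_basis (j : Fin (Module.finrank ℂ g)) :
    co (Module.finBasis ℂ g j) = Pi.single j 1 := by
  funext i
  simp only [co, Module.Basis.repr_self]
  rw [Finsupp.single_apply, Pi.single_apply]
  simp only [eq_comm]

theorem co_inj {x y : g} (h : co x = co y) : x = y := by
  apply (Module.finBasis ℂ g).repr.injective
  ext i
  exact congrFun h i

/-- the solution vector -/
noncomputable def YY {s : ℕ} (I K : Fin s → Fin (Module.finrank ℂ g)) (x : g) : g :=
  ∑ k, (((MM x).submatrix I K).adjugate.mulVec (fun i => co x (I i))) k •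
    Module.finBasis ℂ g (K k)

theorem YY_hv (H : HPc g) {s : ℕ} (I K : Fin s → Fin (Module.finrank ℂ g)) :
    HV ((s - 1) * 2 + 1) (fun x : g => YY I K x) := by
  unfold YY
  refine H.vsum (Fin s) Finset.univ ((s - 1) * 2 + 1)
    (fun k x => (((MM x).submatrix I K).adjugate.mulVec (fun i => co x (I i))) k •
      Module.finBasis ℂ g (K k)) (fun k _ => ?_)
  have h := H.vsmul ((s - 1) * 2 + 1) 0
    (fun x => (((MM x).submatrix I K).adjugate.mulVec (fun i => co x (I i))) k)
    (fun _ => Module.finBasis ℂ g (K k)) ?_ (H.vconst _)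
  · exact h
  · simp only [Matrix.mulVec, dotProduct]
    refine H.sum (Fin s) Finset.univ ((s - 1) * 2 + 1)
      (fun i x => ((MM x).submatrix I K).adjugate k i * co x (I i)) (fun i _ => ?_)
    refine H.mul ((s - 1) * 2) 1 (fun x => ((MM x).submatrix I K).adjugate k i)
      (fun x => co x (I i)) ?_ (H.vid (I i))
    exact H.adj 2 s (fun x => (MM x).submatrix I K) (fun a c => MM_hp H (I a) (K c)) k i

theorem hCHM : StCRA → StHPC.{u} → StGPF.{u} → StCHM.{u} := by
  intro hC hH hG g _ _ _ e h f N pr hSl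
  have H := hH g
  have G := hG g
  have hee : ⁅e, ⁅e, f⁆⁆ = -((2 : ℂ) • e) := by
    rw [hSl.tri.lie_e_f, ← lie_skew, hSl.tri.lie_h_e_nsmul, two_nsmul, two_smul]
  have he0 : e ≠ 0 := hSl.tri.e_ne_zero
  obtain ⟨s, hs, I, K, hIK⟩ : ∃ s : ℕ, (MM e).rank = s ∧
      ∃ I K : Fin s → Fin (Module.finrank ℂ g), ((MM e).submatrix I K).det ≠ 0 :=
    ⟨_, rfl, hC.1 _ (MM e)⟩
  have hs1 : 1 ≤ s := by
    rw [← hs]
    rw [MM_rank]
    by_contra hlt
    have h0 : Module.finrank ℂ (LinearMap.range (ad2 e)) = 0 := by omega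
    have h1 : LinearMap.range (ad2 e) = ⊥ := Submodule.finrank_eq_zero.1 h0
    have h2 : ad2 e f ∈ LinearMap.range (ad2 e) := ⟨f, rfl⟩
    rw [h1, Submodule.mem_bot, ad2_apply, hee, neg_eq_zero, smul_eq_zero] at h2
    rcases h2 with h2 | h2
    · norm_num at h2
    · exact he0 h2
  refine ⟨(s - 1) * 2 + 1, fun x => ((MM x).submatrix I K).det, fun x => (-2 : ℂ) • YY I K x,
    ?_, ?_, hIK, ?_⟩
  · have h1 := H.det 2 s (fun x : g => (MM x).submatrix I K) (fun a c => MM_hp H (I a) (K c))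
    have h2 : s * 2 = (s - 1) * 2 + 1 + 1 := by omega
    rw [h2] at h1
    exact h1
  · have h1 := H.vsmul 0 ((s - 1) * 2 + 1) (fun _ => (-2 : ℂ)) (fun x : g => YY I K x)
      (H.const _) (YY_hv H I K)
    rw [zero_add] at h1
    exact h1
  · intro w hw hq
    have hr : (MM (w e)).rank = s := by rw [rank_orb G e w hw, hs]
    have hv : ∃ v, (MM (w e)).mulVec v = co (w e) := by
      refine ⟨co ((-(1 / 2) : ℂ) • w f), ?_⟩
      rw [MM_mulVec, lie_smul, lie_smul, ← G.lie ⊤ w hw, ← G.lie ⊤ w hw, hee, map_neg, map_smul,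
        smul_neg, smul_smul, ← neg_smul]
      norm_num
    have h1 := hC.2 _ s (MM (w e)) I K (co (w e)) hr hq hv
    have h2 : (∑ k, (((MM (w e)).submatrix I K).adjugate.mulVec (fun i => co (w e) (I i))) k •
        Pi.single (K k) (1 : ℂ)) = co (YY I K (w e)) := by
      rw [YY, co_sum]
      refine Finset.sum_congr rfl (fun k _ => ?_)
      rw [co_smul, co_basis]
    rw [h2, MM_mulVec, ← co_smul] at h1
    have h3 := co_inj h1
    change ⁅w e, ⁅w e, (-2 : ℂ) • YY I K (w e)⁆⁆ = _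
    rw [lie_smul, lie_smul, h3, smul_smul, ← neg_smul]
    congr 1
    ring

end Pool.Agent.Helper6.KPG
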